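import Pool.Agent.H10.Rec2

namespace Pool.Agent.Results.MP_a29a94_pr.Liouville
open MeasureTheory

/-- A Liouville symmetric non-degenerate random walk that is not algebraically recurrent. -/
theorem result : ∃ (G : Type) (_ : Group G) (_ : Countable G) (_ : MeasurableSpace G)
    (_ : DiscreteMeasurableSpace G) (μ : PMF G),
    (∀ g, μ g⁻¹ = μ g) ∧ Subgroup.closure μ.support = ⊤ ∧
    (∀ (f : G → ℝ) (C : ℝ), (∀ g, |f g| ≤ C) → (∀ g, f g = ∑' h, (μ h).toReal * f (g * h)) →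
      ∀ g g', f g = f g') ∧
    ¬ ∀ᵐ ω ∂(Measure.infinitePi fun _ : ℕ => μ.toMeasure), Subsemigroup.closure
      (Set.range fun k : ℕ => ((List.range (1 + k)).map ω).prod) = ⊤ := by
  let _ : MeasurableSpace (Multiplicative (ℤ →₀ ℤ)) := ⊤
  have : DiscreteMeasurableSpace (Multiplicative (ℤ →₀ ℤ)) := ⟨fun _ => trivial⟩
  obtain ⟨μ, h1, h2, h3⟩ := Pool.Agent.H10.Rec.sumZ
  exact ⟨_, inferInstance, inferInstanceAs (Countable (ℤ →₀ ℤ)), _, this, μ, h1, h2,
    fun f C hC hf g g' => (Pool.Agent.H10.Rec.cd μ h1 h2 f C hC hf g).trans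
      (Pool.Agent.H10.Rec.cd μ h1 h2 f C hC hf g').symm, h3⟩

end Pool.Agent.Results.MP_a29a94_pr.Liouville
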